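import Pool.Agent.W2helper1.WH.Tree

/-! Certificate cells, part 3. -/

namespace Pool.Agent.W2helper1.WH.Cert

set_option maxRecDepth 100000

theorem b29 : Cov ⟨1, 1, 3⟩ ⟨2, 3, 2⟩ ⟨0, 1, 1⟩ :=
  ⟨(.U (.V (.W (.V (.U .L (.W .L .L)) (.U .L (.W .L .L))) (.U (.U .L .L) (.V .L .L))) (.W (.U (.V
    .L .L) (.W (.U .L .L) (.U .L .L))) (.U .L (.U .L .L)))) (.V (.W (.V (.U (.W (.U .L .L) .L) (.W
    (.W (.U .L .L) (.U .L .L)) (.V .L .L))) (.U (.W (.U .L .L) .L) (.W (.W .L .L) (.W .L .L)))) (.U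
    (.V (.W .L .L) (.U .L .L)) (.V (.W (.U .L .L) .L) (.W (.U .L .L) .L)))) (.W (.U (.W (.V .L .L)
    (.V .L .L)) (.W (.V (.U .L .L) (.U .L .L)) (.V (.U .L .L) (.U .L .L)))) (.U (.V (.U .L .L) .L)
    (.V (.W (.U .L .L) .L) (.W .L .L)))))),
  by decide +kernel⟩

theorem b30 : Cov ⟨1, 5, 4⟩ ⟨2, 5, 3⟩ ⟨0, 1, 1⟩ :=
  ⟨(.W (.V (.U (.W (.W (.V .L .L) (.V .L .L)) (.V (.U .L .L) (.U .L .L))) (.W (.V (.W .L .L) (.W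
    (.U .L .L) (.U .L .L))) (.V (.W .L .L) (.W (.U .L .L) (.U .L .L))))) (.W (.U (.W (.V .L .L) (.V
    .L .L)) (.V (.W (.U .L .L) (.U .L .L)) (.W (.U .L .L) (.U .L .L)))) (.U (.W (.V .L .L) (.V .L
    .L)) (.W (.V (.U .L .L) (.U .L .L)) (.V (.U .L .L) (.U .L .L)))))) (.V (.W (.U (.V (.U .L .L)
    (.U .L .L)) (.V (.U .L .L) (.W (.U .L .L) .L))) (.U (.U .L .L) (.V (.U .L .L) (.U .L .L)))) (.U
    (.W (.V (.U .L .L) (.U .L .L)) (.U .L .L)) (.W (.V (.W (.U .L .L) (.U .L .L)) (.W (.U .L .L)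
    .L)) (.V (.U .L .L) (.U .L .L)))))),
  by decide +kernel⟩

theorem b31 : Cov ⟨1, 7, 4⟩ ⟨2, 5, 3⟩ ⟨0, 1, 1⟩ :=
  ⟨(.W (.V (.W (.U (.V (.W .L (.U .L .L)) (.W (.U .L .L) (.U .L .L))) (.V (.W .L .L) (.W .L (.U .L
    .L)))) (.U (.V (.W .L .L) (.W (.U .L .L) (.U .L .L))) (.V (.U .L .L) (.W (.U .L .L) (.U .L
    .L))))) (.W (.U (.V (.W (.U .L .L) (.U .L .L)) (.W (.U .L (.U .L .L)) (.U (.U .L .L) (.U .L
    .L)))) (.V (.W (.U .L .L) (.U .L .L)) (.W (.U (.U .L .L) (.U .L .L)) (.U (.U .L .L) (.U .L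
    .L))))) (.U (.W (.V (.U .L .L) (.U (.U .L .L) (.U .L .L))) (.V (.U .L .L) (.U (.U .L .L) (.U .L
    .L)))) (.W (.V (.U .L .L) (.U (.U .L .L) (.U .L .L))) (.V (.U .L .L) (.U (.U .L .L) (.U .L
    .L))))))) (.V (.W (.U (.V (.W .L .L) (.W (.U .L .L) .L)) (.V (.W .L .L) (.W (.U .L .L) .L))) (.U
    (.V (.U .L .L) (.U .L .L)) (.V (.U .L .L) (.U .L .L)))) (.W (.U (.V (.W (.U .L .L) .L) (.W (.U
    .L .L) (.U .L .L))) (.V (.W (.U .L .L) .L) (.W (.U .L .L) (.U .L .L)))) (.U (.V (.U .L .L) (.U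
    .L .L)) (.V (.U .L .L) (.U .L .L)))))),
  by decide +kernel⟩

theorem b32 : Cov ⟨1, 5, 4⟩ ⟨2, 7, 3⟩ ⟨0, 1, 1⟩ :=
  ⟨(.W (.W (.U (.V (.U (.V .L .L) (.W (.U .L .L) (.U .L .L))) (.U (.U .L .L) (.W .L .L))) (.V (.W
    (.U (.V .L .L) (.V .L (.U .L .L))) (.U (.V .L .L) (.V (.U .L .L) .L))) (.W (.U (.V .L .L) (.V .L
    .L)) (.U (.U .L .L) (.V .L .L))))) (.U (.V (.W (.U .L .L) (.U .L .L)) (.W (.U .L .L) (.U .L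
    .L))) (.V (.W (.U (.V .L .L) (.V (.U .L .L) (.U .L .L))) (.U (.V .L .L) (.V .L (.U .L .L)))) (.W
    (.U (.U .L .L) (.V (.U .L .L) .L)) (.U (.U .L .L) (.V .L .L)))))) (.U (.V (.W (.W (.U .L .L) (.U
    .L .L)) .L) (.W (.W (.U .L .L) .L) .L)) (.V (.W (.W (.U (.U .L .L) (.V .L .L)) (.V .L .L)) (.V
    (.U .L .L) .L)) (.W (.W (.U .L (.U .L .L)) (.U .L .L)) (.V .L .L))))),
  by decide +kernel⟩

theorem b33 : Cov ⟨1, 7, 4⟩ ⟨2, 7, 3⟩ ⟨0, 1, 3⟩ :=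
  ⟨(.V (.U (.W (.V (.U (.U .L .L) (.V .L .L)) (.U (.U .L .L) (.V .L .L))) (.V (.U (.V .L .L) (.W .L
    .L)) (.U (.V .L .L) (.W .L (.U .L .L))))) (.W (.V (.U (.V .L .L) (.U .L .L)) (.U (.V .L .L) (.V
    .L .L))) (.V (.U (.W .L (.U .L .L)) (.V .L .L)) (.U (.W (.U .L .L) (.U .L .L)) (.W (.U .L .L)
    (.U .L .L)))))) (.U (.W (.U (.V (.U .L .L) (.U .L .L)) (.V (.W .L .L) (.W .L .L))) (.U (.V (.U
    .L .L) (.V .L .L)) (.V (.W (.U .L .L) (.U .L .L)) (.W .L (.U .L .L))))) (.W (.V (.U (.W .L .L)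
    (.W .L .L)) (.U (.W .L .L) (.W .L .L))) (.V (.U (.W (.U .L .L) (.U .L .L)) (.W (.U .L .L) (.U .L
    .L))) (.U (.W (.U .L .L) (.U .L .L)) (.W (.U .L .L) (.V .L (.U .L .L)))))))),
  by decide +kernel⟩

theorem b34 : Cov ⟨1, 7, 4⟩ ⟨2, 13, 4⟩ ⟨0, 3, 3⟩ :=
  ⟨(.U (.W (.V (.U (.V .L .L) (.W (.U .L .L) (.U .L .L))) (.U (.W .L .L) (.W (.U .L .L) (.U .L
    .L)))) (.V (.U (.V .L .L) (.W (.U .L .L) .L)) (.U (.W .L .L) (.W (.U .L .L) (.U .L .L))))) (.W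
    (.V (.U (.W (.U .L .L) (.U .L .L)) (.W (.U .L .L) (.U .L .L))) (.U (.W (.V .L .L) (.V .L .L))
    (.W (.V .L .L) (.V .L (.U .L .L))))) (.V (.U (.W (.U .L .L) .L) (.W (.U .L .L) .L)) (.U (.W (.V
    .L (.U .L .L)) (.V .L .L)) (.W (.V .L (.U .L .L)) (.V .L .L)))))),
  by decide +kernel⟩

theorem b35 : Cov ⟨1, 7, 4⟩ ⟨2, 15, 4⟩ ⟨0, 3, 3⟩ :=
  ⟨(.U (.W (.U (.V (.W (.U .L .L) .L) (.W .L .L)) (.V (.W (.U .L .L) (.V .L (.U .L .L))) (.W (.V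
    (.U .L .L) (.U .L .L)) (.U .L (.U .L .L))))) (.U (.V (.W .L .L) (.W .L .L)) (.V (.W (.V .L (.U
    .L .L)) (.U .L .L)) (.W (.U .L (.U .L .L)) (.U .L .L))))) (.W (.V (.U (.W (.V (.U .L .L) (.U .L
    .L)) (.V (.U .L .L) (.U .L .L))) (.W (.V (.U .L .L) (.U .L .L)) (.V (.U .L .L) (.U .L (.U .L
    .L))))) (.U (.W (.V (.U .L .L) (.U .L .L)) (.U (.V .L .L) (.V (.U .L .L) (.U .L .L)))) (.W (.V
    (.U .L .L) (.U .L .L)) (.V (.U (.U .L .L) (.V .L .L)) (.U (.W .L .L) (.W .L .L)))))) (.V (.U (.W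
    (.V (.U .L .L) (.U .L .L)) (.V (.U .L .L) (.U .L .L))) (.W (.V (.U .L .L) (.U .L .L)) (.V (.U .L
    .L) (.U .L .L)))) (.U (.W (.U (.V .L .L) (.V (.U .L .L) (.U .L .L))) (.U (.V .L .L) (.V (.U .L
    .L) (.U .L .L)))) (.W (.V (.U (.U .L .L) (.V .L .L)) (.U (.W .L .L) (.W (.U .L .L) (.U .L .L))))
    (.V (.U (.U .L .L) (.V .L .L)) (.U (.W .L .L) (.W (.U .L .L) .L)))))))),
  by decide +kernel⟩

end Pool.Agent.W2helper1.WH.Cert
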