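import Pool.Agent.W2helper1.WH.Tree

/-! Certificate cells, part 6. -/

namespace Pool.Agent.W2helper1.WH.Cert

set_option maxRecDepth 100000

theorem b50 : Cov ⟨1, 1, 2⟩ ⟨2, 1, 1⟩ ⟨2, 1, 1⟩ :=
  ⟨(.V (.U (.V (.U (.W (.V (.U .L .L) (.U .L .L)) (.V (.U .L .L) (.U .L .L))) (.W (.V (.U .L .L)
    (.U .L .L)) (.V (.U .L .L) (.W .L .L)))) (.U (.W (.V (.U .L .L) .L) (.V (.U .L .L) (.U .L .L)))
    (.W (.V (.U .L .L) (.U .L .L)) (.V (.W (.U .L .L) (.U .L .L)) (.U .L (.U .L .L)))))) (.V (.U (.V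
    (.W .L (.U .L .L)) (.W (.U .L .L) (.W .L (.U .L .L)))) (.V (.W .L (.U .L .L)) (.W .L (.U .L
    .L)))) (.U (.V (.W (.U .L .L) (.W .L (.U .L .L))) (.W (.U .L .L) (.W .L (.U .L .L)))) (.V (.W .L
    (.W .L .L)) (.W (.U .L .L) (.W .L .L)))))) (.U (.U (.V (.W (.U .L .L) (.V (.U .L .L) .L)) (.W
    (.U .L (.V .L .L)) .L)) (.V (.W (.V (.U .L .L) (.U .L .L)) (.V (.U .L .L) (.U .L .L))) (.W (.W
    (.V .L (.U .L .L)) (.U .L .L)) (.U .L .L)))) (.V (.U (.W (.V (.U .L .L) (.U .L (.U .L .L))) (.V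
    (.U .L .L) (.U .L .L))) (.V (.W (.U .L .L) (.U .L .L)) (.W (.U (.U .L .L) (.U .L .L)) (.U .L
    .L)))) (.U (.W (.U (.W (.V .L .L) .L) (.W (.V .L .L) (.V .L .L))) (.V (.U .L .L) .L)) (.W (.W
    (.V (.U .L .L) (.U .L .L)) (.V .L .L)) (.V (.U .L .L) (.U .L .L))))))),
  by decide +kernel⟩

theorem b51 : Cov ⟨1, 3, 2⟩ ⟨2, 1, 1⟩ ⟨2, 1, 1⟩ :=
  ⟨(.V (.U (.V (.U (.V .L (.V .L .L)) (.U .L .L)) (.U (.V (.W .L (.U .L .L)) (.W .L (.U .L .L)))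
    (.V (.U .L .L) (.W .L .L)))) (.V .L (.U (.V .L .L) .L))) (.U (.V (.U (.V (.W (.U .L .L) (.U .L
    .L)) (.W (.U .L .L) .L)) (.V (.W (.U .L .L) .L) (.W (.U .L .L) .L))) (.U (.W (.W (.V (.U .L .L)
    (.U .L .L)) (.U .L .L)) (.U .L .L)) (.W (.W (.V .L .L) (.U .L .L)) (.U .L .L)))) (.V (.U (.W (.V
    .L (.U .L .L)) .L) (.U (.V .L (.U .L .L)) (.V .L .L))) (.W (.U (.W (.V .L .L) .L) (.W (.U .L .L)
    .L)) (.U .L .L))))),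
  by decide +kernel⟩

theorem b52 : Cov ⟨1, 1, 2⟩ ⟨2, 1, 2⟩ ⟨3, 1, 1⟩ :=
  ⟨(.U (.V (.U (.W (.V (.W (.U .L .L) (.U .L .L)) (.U (.U .L .L) (.W .L .L))) (.V (.U .L .L) (.U .L
    .L))) (.W (.V (.W (.U .L .L) (.U .L .L)) (.W (.U .L .L) (.U .L .L))) (.V (.U .L .L) (.U (.U .L
    .L) (.V .L .L))))) (.U (.W (.V (.W (.U .L .L) (.U .L .L)) (.U (.V .L .L) (.W .L .L))) (.V (.U .L
    (.U .L .L)) (.U .L (.U .L .L)))) (.W (.V (.W (.U .L (.U .L .L)) (.U .L (.U .L .L))) (.W (.U .L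
    (.U .L .L)) (.U .L (.U .L .L)))) (.V (.U (.W .L .L) (.W (.U .L .L) (.U .L .L))) (.U (.W .L .L)
    (.W (.U .L .L) (.U .L .L))))))) (.U (.V (.W (.V (.W (.U .L .L) (.U .L .L)) (.W (.U .L .L) (.U .L
    .L))) (.V (.U (.U .L .L) (.U .L .L)) (.W (.U .L .L) (.U .L .L)))) (.W (.V (.W (.U (.U .L .L) (.U
    .L .L)) (.U (.U .L .L) (.U .L .L))) (.W (.U (.U .L .L) (.U .L .L)) (.U (.V .L .L) (.V .L .L))))
    (.V (.W (.U (.U .L .L) (.U .L .L)) (.U (.U .L .L) (.U .L .L))) (.W (.U (.V .L .L) (.V .L .L))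
    (.U (.V .L .L) (.V .L .L)))))) (.V (.W (.V (.U .L .L) (.W (.U .L .L) (.U .L .L))) (.V (.U .L .L)
    (.V (.U .L .L) (.U .L .L)))) (.W (.V (.W (.U .L .L) (.U (.U .L .L) .L)) (.W (.U (.U .L .L) .L)
    (.U (.V .L .L) (.V .L .L)))) (.V (.U (.W (.U .L .L) (.U .L .L)) (.W .L .L)) (.U (.W (.V .L .L)
    (.V .L .L)) (.W (.V .L .L) (.U .L .L)))))))),
  by decide +kernel⟩

theorem b53 : Cov ⟨1, 1, 3⟩ ⟨2, 3, 2⟩ ⟨3, 1, 1⟩ :=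
  ⟨(.U (.V (.W (.U (.V (.V .L .L) .L) (.V (.W .L .L) (.W .L .L))) (.V (.U .L (.U .L .L)) (.U .L (.U
    .L .L)))) (.W (.U .L (.W .L .L)) (.U (.U .L .L) (.V .L .L)))) (.V (.W (.V (.W (.U .L (.U .L .L))
    (.U (.U .L .L) (.U .L .L))) (.W (.U .L .L) (.U .L (.U .L .L)))) (.V (.U (.W .L .L) (.W (.U .L
    .L) (.U .L .L))) (.U (.W .L .L) (.W (.U .L .L) (.U .L .L))))) (.W (.U (.V (.W .L .L) .L) (.W (.V
    .L .L) (.V .L .L))) (.U (.V (.W .L .L) (.W .L .L)) (.V (.W (.U .L .L) (.U .L .L)) (.W .L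
    .L)))))),
  by decide +kernel⟩

theorem b54 : Cov ⟨1, 3, 3⟩ ⟨2, 5, 3⟩ ⟨3, 1, 1⟩ :=
  ⟨(.W (.U (.V (.W (.U (.U .L .L) (.U .L .L)) (.U (.V .L .L) (.W .L .L))) (.W (.U .L .L) (.U (.V .L
    .L) (.W .L .L)))) (.W (.V (.U (.U .L .L) .L) (.U .L .L)) (.V (.U (.W .L .L) (.V .L .L)) (.U (.W
    .L .L) (.V .L .L))))) (.U (.V (.W (.U (.V .L (.U .L .L)) (.V (.U .L .L) (.U .L .L))) (.U (.V .L
    .L) (.V .L (.U .L .L)))) (.W (.U (.V (.U .L .L) (.U .L .L)) (.W (.U .L .L) (.U .L .L))) (.U (.V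
    (.U .L .L) (.U .L .L)) (.V (.U .L .L) (.U .L .L))))) (.V (.W (.U (.V (.U .L .L) (.U .L .L)) (.V
    .L (.U .L .L))) (.U (.V .L (.U .L .L)) (.V .L (.U .L .L)))) (.W (.U (.W (.U .L .L) (.U .L .L))
    (.W (.U .L .L) (.U .L .L))) (.U (.V (.U .L .L) (.W .L (.U .L .L))) (.V (.U .L .L) (.W .L (.U .L
    .L)))))))),
  by decide +kernel⟩

theorem b55 : Cov ⟨1, 3, 3⟩ ⟨2, 7, 3⟩ ⟨3, 1, 1⟩ :=
  ⟨(.U (.W (.W (.V (.U .L .L) (.U .L .L)) (.V (.U (.U .L .L) (.V .L .L)) (.U .L (.U .L .L)))) (.W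
    (.V (.U (.W .L (.U .L .L)) (.W (.U .L .L) (.U .L .L))) (.U (.U .L .L) (.W .L (.U .L .L)))) (.V
    (.U (.V (.U .L .L) .L) (.V (.U .L .L) (.U .L .L))) (.U (.U .L .L) (.U (.U .L .L) (.V .L .L))))))
    (.W (.W (.V (.U .L .L) .L) (.V (.U (.V .L .L) (.V .L .L)) (.U (.U .L .L) (.U .L .L)))) (.W (.V
    (.U (.W (.U .L .L) (.U .L .L)) (.W .L (.U .L .L))) (.U (.W .L (.U .L .L)) (.W .L (.U .L .L))))
    (.V (.U (.V (.W .L (.U .L .L)) (.W .L (.U .L .L))) (.V (.W .L (.U .L .L)) (.W .L (.U .L .L))))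
    (.U (.W (.U .L .L) (.U (.U .L .L) (.U .L .L))) (.W (.U .L .L) (.V (.U .L .L) (.U .L .L)))))))),
  by decide +kernel⟩

theorem b56 : Cov ⟨1, 3, 2⟩ ⟨2, 1, 2⟩ ⟨3, 1, 1⟩ :=
  ⟨(.U (.V (.U (.W (.V .L (.W .L .L)) (.V .L (.U .L .L))) (.W (.V .L .L) (.V .L .L))) (.U (.W (.V
    (.W (.U .L .L) (.U .L .L)) (.W (.U .L .L) (.U (.U .L .L) .L))) (.V (.U (.V .L .L) .L) (.U (.W
    (.U .L .L) (.U .L .L)) (.V .L .L)))) (.W (.V (.U .L .L) (.W .L .L)) (.V (.U .L .L) (.W .L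
    .L))))) (.V (.W (.U .L .L) (.U (.U .L .L) .L)) (.W (.U (.V .L (.U .L .L)) (.V .L .L)) (.U (.V .L
    .L) (.U .L .L))))),
  by decide +kernel⟩

end Pool.Agent.W2helper1.WH.Cert
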