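import Pool.Agent.W2helper1.WH.Tree

/-! Certificate cells, part 7. -/

namespace Pool.Agent.W2helper1.WH.Cert

set_option maxRecDepth 100000

theorem b57 : Cov ⟨1, 3, 2⟩ ⟨2, 3, 2⟩ ⟨3, 1, 1⟩ :=
  ⟨(.U (.U (.V (.W (.W (.V (.U .L .L) (.U .L .L)) (.V (.U (.U .L .L) .L) (.U (.U .L .L) .L))) (.V
    (.W (.U (.V .L .L) (.U .L .L)) (.U (.V .L .L) (.U .L .L))) (.W (.U (.V (.U .L .L) (.U .L .L))
    (.U .L .L)) (.U (.V (.U .L .L) (.U .L .L)) (.V .L .L))))) (.W (.W (.U (.U .L .L) .L) (.V (.U (.U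
    .L .L) .L) (.U (.U .L .L) .L))) (.W (.V (.U (.W .L (.U .L .L)) (.V .L .L)) (.U (.W .L .L) (.V .L
    .L))) (.V (.U (.V (.U .L .L) (.W .L (.U .L .L))) (.V (.U .L .L) (.U .L .L))) (.U (.W (.U .L .L)
    (.U (.U .L .L) .L)) (.W .L (.U .L .L))))))) (.V (.W (.W (.V .L .L) (.V (.U .L .L) (.U .L .L)))
    (.V (.W (.U .L .L) (.U .L .L)) (.W (.U .L .L) (.U (.U .L .L) .L)))) (.W (.W (.U .L .L) (.V (.U
    .L .L) (.U .L .L))) (.W (.V (.U .L .L) (.U .L .L)) (.V (.U (.U .L .L) .L) (.U (.U .L .L)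
    .L)))))) (.U (.V (.W (.W (.U .L .L) (.V .L .L)) (.V (.U .L .L) (.W .L .L))) (.W (.W .L (.U .L
    .L)) (.W (.V .L .L) (.V .L (.U .L .L))))) (.V (.W (.V .L .L) (.V .L .L)) (.W (.V .L .L) (.W (.U
    .L .L) (.U .L .L)))))),
  by decide +kernel⟩

theorem b58 : Cov ⟨1, 1, 3⟩ ⟨3, 1, 2⟩ ⟨0, 1, 1⟩ :=
  ⟨(.V (.U (.W (.V (.U (.U .L .L) (.V .L .L)) (.W (.U .L .L) (.U .L .L))) (.V (.U .L .L) (.U .L
    .L))) (.W (.V (.U (.W (.U .L .L) .L) (.W (.V .L .L) (.V .L .L))) (.W (.U .L (.V .L .L)) (.U .L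
    (.U .L .L)))) (.V (.U (.V .L .L) (.W (.U .L .L) .L)) (.U (.V .L .L) (.W .L .L))))) (.U (.W (.V
    (.W (.U .L .L) (.U .L .L)) (.W .L .L)) (.V (.U .L .L) (.U .L .L))) (.W (.V (.W (.U .L .L) (.U .L
    .L)) (.W (.U .L .L) (.U .L .L))) (.V (.U (.U .L .L) (.V .L .L)) (.U (.U .L .L) (.U .L .L)))))),
  by decide +kernel⟩

theorem b59 : Cov ⟨1, 5, 4⟩ ⟨3, 1, 3⟩ ⟨0, 1, 1⟩ :=
  ⟨(.W (.V (.U (.W (.V (.W (.U .L .L) (.U .L .L)) (.W .L .L)) (.V (.W (.U .L .L) .L) (.U .L .L)))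
    (.W (.V (.W (.U .L (.U .L .L)) (.U .L (.V .L .L))) (.W (.U .L .L) (.U .L (.U .L .L)))) (.V (.W
    (.U .L (.V .L .L)) (.U .L (.V .L .L))) (.W (.U .L .L) (.U .L .L))))) (.W (.U (.V (.U .L .L) .L)
    (.V (.W .L (.U .L .L)) (.U .L .L))) (.U (.V .L .L) (.V (.U .L (.V .L .L)) (.U .L .L))))) (.V (.U
    (.W (.V (.U .L .L) (.U .L .L)) (.V .L .L)) (.W (.V (.W (.U .L (.U .L .L)) (.U .L .L)) (.W (.U .L
    .L) (.U .L .L))) (.V (.U .L .L) (.U .L .L)))) (.U (.W (.V .L .L) (.U .L .L)) (.W (.V (.W .L .L)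
    (.U .L .L)) (.V .L .L))))),
  by decide +kernel⟩

theorem b60 : Cov ⟨1, 7, 4⟩ ⟨3, 1, 4⟩ ⟨0, 1, 3⟩ :=
  ⟨(.U (.V (.W (.U (.V .L .L) (.V (.U .L .L) (.U .L .L))) (.U (.V (.V .L .L) (.U .L .L)) (.W (.V .L
    .L) (.V (.U .L .L) (.U .L .L))))) (.W (.U (.U .L .L) (.V .L .L)) (.U (.V .L .L) (.V (.U .L .L)
    .L)))) (.V (.W (.U (.V (.W .L .L) (.W .L .L)) (.V (.W .L .L) (.W .L .L))) (.U (.V (.W (.U .L .L)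
    (.W .L (.U .L .L))) (.W (.U .L .L) (.U .L .L))) (.V (.W (.U .L .L) (.V (.U .L .L) .L)) (.W (.U
    .L .L) (.U .L .L))))) (.W (.V (.U (.U .L .L) (.V .L .L)) (.U .L (.U .L .L))) (.U (.V (.W .L .L)
    (.U .L .L)) (.V (.W (.U .L .L) (.U .L .L)) (.W .L .L)))))),
  by decide +kernel⟩

theorem b61 : Cov ⟨1, 13, 5⟩ ⟨3, 1, 4⟩ ⟨0, 3, 3⟩ :=
  ⟨(.V (.W (.U (.V (.W .L .L) (.U .L .L)) (.V (.W (.U .L .L) (.U .L (.U .L .L))) (.W .L (.U .L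
    .L)))) (.U (.V (.U .L .L) (.U .L .L)) (.V (.W (.U .L .L) (.U .L .L)) (.U (.U .L .L) (.V .L
    .L))))) (.W (.U (.V .L .L) (.V (.U .L .L) .L)) (.U (.V .L .L) (.V (.W .L .L) (.U .L .L))))),
  by decide +kernel⟩

theorem b62 : Cov ⟨1, 15, 5⟩ ⟨3, 1, 5⟩ ⟨0, 3, 3⟩ :=
  ⟨(.W (.U (.V (.W (.U (.U .L .L) (.U .L .L)) (.U (.V .L .L) (.V (.U .L .L) (.U .L .L)))) (.W (.U
    .L .L) (.U (.U .L .L) (.V .L .L)))) (.V (.W (.U (.V .L .L) (.V .L .L)) (.U (.V (.W .L .L) (.W .L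
    .L)) (.V (.W .L .L) (.W .L .L)))) (.W (.U (.U .L .L) (.V .L .L)) (.U (.V (.V .L .L) (.U .L .L))
    (.V (.W .L .L) (.W .L .L)))))) (.U (.V (.W (.U (.V .L .L) (.V (.U .L .L) (.U .L .L))) (.U (.V .L
    .L) (.V (.U .L .L) (.U .L .L)))) (.W (.U (.U .L .L) (.V (.U .L .L) .L)) (.U (.U .L .L) (.V .L
    .L)))) (.V (.W (.U (.V (.W .L (.U .L .L)) (.W (.U .L .L) (.U .L .L))) (.V (.W (.U .L .L) (.U .L
    .L)) (.W (.U .L .L) (.U .L .L)))) (.U (.V (.W (.U .L .L) .L) (.W (.U .L .L) .L)) (.V (.W (.U .L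
    .L) (.U .L .L)) (.W (.U .L .L) (.U .L .L))))) (.W (.U (.V (.W .L (.U .L .L)) (.W .L .L)) (.V (.W
    (.U .L .L) (.V .L .L)) (.W .L (.U .L .L)))) (.U (.V (.W .L .L) (.U .L .L)) (.V (.W (.U .L .L)
    (.U .L .L)) (.W (.U .L .L) (.U .L .L)))))))),
  by decide +kernel⟩

theorem b63 : Cov ⟨1, 15, 5⟩ ⟨3, 3, 5⟩ ⟨0, 3, 3⟩ :=
  ⟨(.W (.U (.V (.W (.U .L .L) (.U .L .L)) (.W .L .L)) (.V (.W (.W (.U .L .L) (.U .L .L)) (.U (.U .L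
    .L) (.V .L .L))) (.W (.U .L .L) (.U .L .L)))) (.U (.V (.W (.U .L (.U .L .L)) (.U .L (.U .L .L)))
    (.W (.U .L .L) (.U .L .L))) (.V (.W (.V (.U (.U .L .L) (.W .L .L)) (.U .L (.U .L .L))) (.U (.V
    .L .L) (.V (.W .L .L) (.U .L .L)))) (.W (.V (.U .L .L) .L) (.U .L (.V .L .L)))))),
  by decide +kernel⟩

theorem b64 : Cov ⟨1, 7, 4⟩ ⟨3, 3, 4⟩ ⟨0, 1, 2⟩ :=
  ⟨(.W (.U (.V (.W (.U .L .L) (.U .L (.U .L .L))) (.W .L (.U .L .L))) (.V (.W (.V (.U .L .L) .L)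
    (.U (.V .L .L) (.V (.U .L .L) .L))) (.W (.U .L .L) (.U .L (.U .L .L))))) (.U (.V (.U (.W .L .L)
    (.W (.V .L .L) (.V .L .L))) (.W (.U .L .L) (.U .L .L))) (.V (.W (.U (.V (.U .L .L) .L) (.V (.W
    .L .L) (.V .L .L))) (.U (.V (.U .L .L) .L) (.V (.W (.U .L .L) (.U .L .L)) (.U .L .L)))) (.W (.U
    (.U .L .L) (.U .L .L)) (.U .L (.U .L .L)))))),
  by decide +kernel⟩

end Pool.Agent.W2helper1.WH.Cert
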