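import Pool.Agent.W2helper1.WH.S5
import Pool.Agent.W2helper1.WH.Cert.C00
import Pool.Agent.W2helper1.WH.Cert.C01
import Pool.Agent.W2helper1.WH.Cert.C02
import Pool.Agent.W2helper1.WH.Cert.C03
import Pool.Agent.W2helper1.WH.Cert.C04
import Pool.Agent.W2helper1.WH.Cert.C05
import Pool.Agent.W2helper1.WH.Cert.C06
import Pool.Agent.W2helper1.WH.Cert.C07
import Pool.Agent.W2helper1.WH.Cert.C08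
import Pool.Agent.W2helper1.WH.Cert.C09
import Pool.Agent.W2helper1.WH.Cert.C10
import Pool.Agent.W2helper1.WH.Cert.C11
import Pool.Agent.W2helper1.WH.Cert.C12
import Pool.Agent.W2helper1.WH.Cert.C13

/-! The root cells. -/

namespace Pool.Agent.W2helper1.WH.Cert

theorem r000 : Cov ⟨0, 1, 1⟩ ⟨0, 1, 1⟩ ⟨0, 1, 1⟩ :=
  b0

theorem r001 : Cov ⟨0, 1, 1⟩ ⟨0, 1, 1⟩ ⟨1, 1, 1⟩ :=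
  b1

theorem r002 : Cov ⟨0, 1, 1⟩ ⟨0, 1, 1⟩ ⟨2, 1, 1⟩ :=
  b2

theorem r003 : Cov ⟨0, 1, 1⟩ ⟨0, 1, 1⟩ ⟨3, 1, 1⟩ :=
  b3

theorem r010 : Cov ⟨0, 1, 1⟩ ⟨1, 1, 1⟩ ⟨0, 1, 1⟩ :=
  b4

theorem r011 : Cov ⟨0, 1, 1⟩ ⟨1, 1, 1⟩ ⟨1, 1, 1⟩ :=
  b5

theorem r012 : Cov ⟨0, 1, 1⟩ ⟨1, 1, 1⟩ ⟨2, 1, 1⟩ :=
  b6

theorem r013 : Cov ⟨0, 1, 1⟩ ⟨1, 1, 1⟩ ⟨3, 1, 1⟩ :=
  b7

theorem r020 : Cov ⟨0, 1, 1⟩ ⟨2, 1, 1⟩ ⟨0, 1, 1⟩ :=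
  b8

theorem r021 : Cov ⟨0, 1, 1⟩ ⟨2, 1, 1⟩ ⟨1, 1, 1⟩ :=
  b9

theorem r022 : Cov ⟨0, 1, 1⟩ ⟨2, 1, 1⟩ ⟨2, 1, 1⟩ :=
  b10

theorem r023 : Cov ⟨0, 1, 1⟩ ⟨2, 1, 1⟩ ⟨3, 1, 1⟩ :=
  b11

theorem r030 : Cov ⟨0, 1, 1⟩ ⟨3, 1, 1⟩ ⟨0, 1, 1⟩ :=
  b12

theorem r031 : Cov ⟨0, 1, 1⟩ ⟨3, 1, 1⟩ ⟨1, 1, 1⟩ :=
  b13

theorem r032 : Cov ⟨0, 1, 1⟩ ⟨3, 1, 1⟩ ⟨2, 1, 1⟩ :=
  b14

theorem r033 : Cov ⟨0, 1, 1⟩ ⟨3, 1, 1⟩ ⟨3, 1, 1⟩ :=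
  b15

theorem r100 : Cov ⟨1, 1, 1⟩ ⟨0, 1, 1⟩ ⟨0, 1, 1⟩ :=
  b16

theorem r101 : Cov ⟨1, 1, 1⟩ ⟨0, 1, 1⟩ ⟨1, 1, 1⟩ :=
  (covU b17 b18)

theorem r102 : Cov ⟨1, 1, 1⟩ ⟨0, 1, 1⟩ ⟨2, 1, 1⟩ :=
  (covU b19 b20)

theorem r103 : Cov ⟨1, 1, 1⟩ ⟨0, 1, 1⟩ ⟨3, 1, 1⟩ :=
  (covU b21 b22)

theorem r110 : Cov ⟨1, 1, 1⟩ ⟨1, 1, 1⟩ ⟨0, 1, 1⟩ :=
  b23

theorem r111 : Cov ⟨1, 1, 1⟩ ⟨1, 1, 1⟩ ⟨1, 1, 1⟩ :=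
  b24

theorem r112 : Cov ⟨1, 1, 1⟩ ⟨1, 1, 1⟩ ⟨2, 1, 1⟩ :=
  b25

theorem r113 : Cov ⟨1, 1, 1⟩ ⟨1, 1, 1⟩ ⟨3, 1, 1⟩ :=
  b26

theorem r120 : Cov ⟨1, 1, 1⟩ ⟨2, 1, 1⟩ ⟨0, 1, 1⟩ :=
  (covU (covV (covU b27 b28) (covU b29 (covV (covU b30 b31) (covU b32 (covW (covW b33 (covV b34
    b35)) b36))))) (covV b37 (covU (covV b38 (covU (covW (covW b39 b40) b41) b42)) b43)))

theorem r121 : Cov ⟨1, 1, 1⟩ ⟨2, 1, 1⟩ ⟨1, 1, 1⟩ :=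
  (covU (covV b44 (covU b45 b46)) (covV b47 (covU b48 b49)))

theorem r122 : Cov ⟨1, 1, 1⟩ ⟨2, 1, 1⟩ ⟨2, 1, 1⟩ :=
  (covU b50 b51)

theorem r123 : Cov ⟨1, 1, 1⟩ ⟨2, 1, 1⟩ ⟨3, 1, 1⟩ :=
  (covU (covV b52 (covU b53 (covV b54 b55))) (covV b56 b57))

theorem r130 : Cov ⟨1, 1, 1⟩ ⟨3, 1, 1⟩ ⟨0, 1, 1⟩ :=
  (covU (covV (covU b58 (covV (covU b59 (covW (covV (covW b60 (covU b61 (covV b62 b63))) b64)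
    b65)) b66)) b67) (covV (covU (covV (covW (covU (covV (covW b68 (covU (covV (covW b69 (covU b70
    b71)) b72) b73)) b74) b75) (covU (covV (covW (covU (covV b76 b77) b78) b79) b80) b81)) b82)
    (covV b83 b84)) b85))

theorem r131 : Cov ⟨1, 1, 1⟩ ⟨3, 1, 1⟩ ⟨1, 1, 1⟩ :=
  (covU (covV (covU b86 b87) b88) (covV (covU (covV b89 b90) b91) b92))

theorem r132 : Cov ⟨1, 1, 1⟩ ⟨3, 1, 1⟩ ⟨2, 1, 1⟩ :=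
  (covU (covV b93 b94) b95)

theorem r133 : Cov ⟨1, 1, 1⟩ ⟨3, 1, 1⟩ ⟨3, 1, 1⟩ :=
  (covU (covV b96 b97) b98)

theorem cov_all : ∀ a < 2, ∀ b < 4, ∀ c < 4, Cov ⟨a, 1, 1⟩ ⟨b, 1, 1⟩ ⟨c, 1, 1⟩ := by
  intro a ha b hb c hc
  interval_cases a <;> interval_cases b <;> interval_cases c
  · exact r000
  · exact r001
  · exact r002
  · exact r003
  · exact r010
  · exact r011
  · exact r012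
  · exact r013
  · exact r020
  · exact r021
  · exact r022
  · exact r023
  · exact r030
  · exact r031
  · exact r032
  · exact r033
  · exact r100
  · exact r101
  · exact r102
  · exact r103
  · exact r110
  · exact r111
  · exact r112
  · exact r113
  · exact r120
  · exact r121
  · exact r122
  · exact r123
  · exact r130
  · exact r131
  · exact r132
  · exact r133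

end Pool.Agent.W2helper1.WH.Cert
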